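import Mathlib
import Pool.Agent.H14.BipEcc

namespace Pool.Agent.Results.MP_b44c21_co.Bound

open SimpleGraph Finset

/-- Eccentricity of a vertex. -/
noncomputable def ecc {n : ℕ} (G : SimpleGraph (Fin n)) (v : Fin n) : ℕ :=
  univ.sup fun u => G.dist v u

/-- The largest independence number of an open neighbourhood. -/
noncomputable def maxLocalIndep {n : ℕ} (G : SimpleGraph (Fin n)) : ℕ :=
  univ.sup fun v => (G.induce (G.neighborSet v)).indepNum

theorem result :
    ∀ (n : ℕ) (G : SimpleGraph (Fin n)), G.Connected →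
      ∃ S : Finset (Fin n), (G.induce (S : Set (Fin n))).IsBipartite ∧
        ⌊(∑ v, (ecc G v : ℚ)) / n + (maxLocalIndep G : ℚ)⌋ ≤ (S.card : ℤ) := by
  intro n G hG
  have := Pool.Agent.H14.BipEcc.main hG
  rw [Fintype.card_fin] at this
  exact this

end Pool.Agent.Results.MP_b44c21_co.Bound
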